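import Pool.Agent.helper24_UT.Ch10
import Pool.Agent.helper24_UT.Gss
import Pool.Agent.TH894.SM0

set_option autoImplicit false

/-!
# Sums of two distinct primes the smaller of which lies in a given interval of length `X ^ (1 / 3 + ε)`

Let `ε > 0` and `A` be fixed, let `X` be large and `X ^ (1 / 3 + ε) ≤ K ≤ X`. All but at most `X ^ 2 / (log X) ^ A` of the pairs
of integers `x, n ≤ X` have the following two properties.
(1) If `x + K < n`, then the number of the pairs `(p, m)` of primes with `p + m = 2 n`, `p > n > m` and with `m` in the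
SHORT interval `(x, x + K]` is `𝔖(2 n) ∑_{x < m ≤ x + K} 1 / (log m log (2 n - m))`, up to a relative error of at most
`1 / (log X) ^ A`; in particular `2 n` is a sum of two distinct primes one of which lies in `(x, x + K]`.
(2) The primes `m` of the interval for which `2 n - m` is prime are equidistributed in the residue classes `r` modulo `q` with
`r (2 n - r)` coprime to `q` in mean square over ALL moduli `q ≤ Q = K exp (- B (log log X) ^ 2)`, with any saving of a power of
the logarithm; the length `y = y(q, r) ≤ K` of the interval `(x, x + y]` may be chosen in every class as unfavourably as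
possible.

Proof. The differences `D` of the primes and their sieve model satisfy
`∑_{x ≤ X} |∑_{x < m ≤ x + K} D(m) e(m α)| ^ 2 ≤ X K ^ 2 / (log X) ^ A` uniformly in `α`, for `K ≥ X ^ (1 / 3 + ε)`
(`Pool.Agent.helper24_UT.Ch.t_MK`; identity of Heath-Brown, Type II sums and divisor sums on the minor arcs, mean values of
Dirichlet polynomials, van der Corput's estimate and a bound of the type of Vinogradov and Korobov on the major arcs; the
method of Mikawa). This bounds the correlations of `D` over long ranges at almost all distances `≤ K` (Gallagher's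
lemma), and with arbitrary weights `w` the sums `∑_{x < m ≤ x + K, m ≡ r (q)} w(m) D(n - m)` in mean square over `x`, `n`, `r`
and `q` (`t_SUP`).

Definitions used from `Pool.Agent.H560R3.GB` (starting files): `C₂`: the twin prime constant
`∏_{p > 2} (1 - 1 / (p - 1) ^ 2)`; `sing n`: the singular series `2 C₂ ∏_{p ∣ n, p > 2} (p - 1) / (p - 2)`.
-/

namespace Pool.Agent.Results.MP_7b7e48_nt.AlmostAllShortWindows

open Finset
open Pool.Agent.H560R3.GB (C₂ sing)

/-- the number of the pairs `(2 n - m, m)` of primes with `2 n - m > n > m` and `x < m ≤ x + K` -/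
def pairs (n x K : ℕ) : ℕ := ((Ioc x (x + K)).filter (fun m => m.Prime ∧ m < n ∧ (2 * n - m).Prime)).card

/-- `∑_{x < m ≤ x + K} 1 / (log m log (2 n - m))` -/
noncomputable def expected (n x K : ℕ) : ℝ := ∑ m ∈ Ioc x (x + K), 1 / (Real.log m * Real.log ((2 * n - m : ℕ) : ℝ))

/-- the number of the primes `m ≤ y` with `m ≡ r (mod q)` for which `n - m` is a prime (for `r < q`) -/
def count (n q r y : ℕ) : ℕ := ((Icc 1 y).filter (fun m => m % q = r ∧ m.Prime ∧ m < n ∧ (n - m).Prime)).card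

/-- `∑_{2 ≤ m ≤ y, m ≤ n - 2} 1 / (log m log (n - m))` -/
noncomputable def logSum (n y : ℕ) : ℝ := ∑ m ∈ Icc 2 (min y (n - 2)), 1 / (Real.log m * Real.log ((n - m : ℕ) : ℝ))

/-- the residues `r` modulo `q` for which `r` and `n - r` are coprime to `q` -/
def residues (n q : ℕ) : Finset ℕ := (range q).filter (fun r : ℕ => r.Coprime q ∧ Int.gcd ((n : ℤ) - r) q = 1)

/-- (1) If `x + K < n`, then `pairs n x K` is `𝔖(2 n) expected n x K`, up to a relative error of at most `1 / (log X) ^ A`;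
(2) for all `Q ≤ K exp (- B (log log X) ^ 2)` and all choices of the lengths `y q r ≤ K` the sum, over all `q ≤ Q` and all
residues `r` of `residues (2 n) q`, of the squares of `count - (𝔖(2 n) / φ_n(q)) logSum`, both taken over
`x < m ≤ x + y q r`, is at most `K ^ 2 / (log X) ^ A`. -/
def Holds (A B X K x n : ℕ) : Prop :=
  (x + K < n → |(pairs n x K : ℝ) - sing (2 * n) * expected n x K| ≤ sing (2 * n) * expected n x K / (Real.log X) ^ A) ∧
  ∀ Q : ℕ, (Q : ℝ) ≤ K * Real.exp (-(B * Real.log (Real.log X) ^ 2)) → ∀ y : ℕ → ℕ → ℕ, (∀ q r, y q r ≤ K) →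
    ∑ q ∈ Icc 1 Q, ∑ r ∈ residues (2 * n) q,
      (((count (2 * n) q r (x + y q r) : ℝ) - count (2 * n) q r x) -
        sing (2 * n) / (residues (2 * n) q).card * (logSum (2 * n) (x + y q r) - logSum (2 * n) x)) ^ 2 ≤
        (K : ℝ) ^ 2 / (Real.log X) ^ A

open Classical in
/-- the number of the pairs of integers `1 ≤ x, n ≤ X` for which `Holds` fails -/
noncomputable def exceptions (A B X K : ℕ) : ℕ := ((Icc 1 X ×ˢ Icc 1 X).filter (fun v => ¬ Holds A B X K v.1 v.2)).card

theorem phi_eq (n q : ℕ) :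
    Pool.Agent.helper24_UT.phf Pool.Agent.helper24_UT.sG (Pool.Agent.helper24_UT.hG n) q = (residues n q).card := by
  classical
  unfold Pool.Agent.helper24_UT.phf residues
  congr 1
  apply filter_congr
  intro t _
  rw [Fin.forall_fin_two]
  have e0 : Pool.Agent.helper24_UT.sG 0 * (t : ℤ) + Pool.Agent.helper24_UT.hG n 0 = (t : ℤ) := by
    simp [Pool.Agent.helper24_UT.sG, Pool.Agent.helper24_UT.hG]
  have e1 : Pool.Agent.helper24_UT.sG 1 * (t : ℤ) + Pool.Agent.helper24_UT.hG n 1 = (n : ℤ) - t := by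
    simp [Pool.Agent.helper24_UT.sG, Pool.Agent.helper24_UT.hG]
    ring
  rw [e0, e1, Int.gcd_natCast_natCast]

lemma C₂_pos : 0 < C₂ := by
  obtain ⟨c, hc, hS⟩ := Pool.Agent.helper24_UT.Slb.main 2
  have h1 := (hS Pool.Agent.helper24_UT.sG (Pool.Agent.helper24_UT.hG 2) (by
    intro i
    fin_cases i
    · exact Or.inl rfl
    · exact Or.inr rfl) (by
    intro i j hij
    fin_cases i <;> fin_cases j
    · exact absurd rfl hij
    · simp [Pool.Agent.helper24_UT.sG, Pool.Agent.helper24_UT.hG]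
    · simp [Pool.Agent.helper24_UT.sG, Pool.Agent.helper24_UT.hG]
    · exact absurd rfl hij)).2
  have h2 : c ≤ Pool.Agent.helper24_UT.sers Pool.Agent.helper24_UT.sG (Pool.Agent.helper24_UT.hG 2) := by
    apply h1
    intro p hp
    by_cases hd : p ∣ 2
    · rw [Pool.Agent.helper24_UT.Gss.nuf_dvd hp hd]
      exact hp.one_lt
    · rw [Pool.Agent.helper24_UT.Gss.nuf_ndvd hp hd]
      have h3 : p ≠ 2 := fun h => hd (h ▸ dvd_rfl)
      have := hp.two_le
      omega
  rw [Pool.Agent.helper24_UT.Gss.main 2 le_rfl dvd_rfl] at h2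
  have h5 : sing 2 = 2 * C₂ := by
    unfold sing
    have : (2 : ℕ).primeFactors.filter (fun p => 2 < p) = ∅ := by
      rw [Nat.Prime.primeFactors Nat.prime_two]
      rfl
    rw [this, prod_empty, mul_one]
  linarith

/-- the singular series is at least `C₂` -/
lemma sing_ge (n : ℕ) (hn : 1 ≤ n) : C₂ ≤ sing (2 * n) := by
  have hC := C₂_pos
  obtain ⟨s1, _⟩ := Pool.Agent.TH894.SM.sing_tot (2 * n) (by omega) (Dvd.intro _ rfl)
  have hφ : (0 : ℝ) < ((2 * n).totient : ℝ) := by exact_mod_cast Nat.totient_pos.2 (by omega)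
  have h1 : (1 : ℝ) ≤ ((2 * n : ℕ) : ℝ) / (2 * n).totient := by
    rw [one_le_div hφ]
    exact_mod_cast Nat.totient_le _
  nlinarith

/-- properties of large numbers -/
lemma large (B : ℕ) (L : ℝ) : ∃ N₁ : ℕ, ∀ N : ℕ, N₁ ≤ N → L ≤ Real.log N ∧
    B * Real.log (Real.log N) ^ 2 ≤ (1 / 3) * Real.log N := by
  have hlog : Filter.Tendsto (fun N : ℕ => Real.log (N : ℝ)) Filter.atTop Filter.atTop :=
    Real.tendsto_log_atTop.comp tendsto_natCast_atTop_atTop
  have h1 : ∀ᶠ N : ℕ in Filter.atTop, max L 1 ≤ Real.log N := hlog.eventually_ge_atTop _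
  have h3 : ∀ᶠ x : ℝ in Filter.atTop, ‖Real.log x ^ 2‖ ≤ 1 / (3 * B + 1 : ℝ) * ‖x‖ :=
    (Real.isLittleO_pow_log_id_atTop (n := 2)).bound (by positivity)
  have h3' := hlog.eventually h3
  obtain ⟨N₁, hN₁⟩ := Filter.eventually_atTop.1 (h1.and h3')
  refine ⟨N₁, fun N hN => ?_⟩
  obtain ⟨g1, g3⟩ := hN₁ N hN
  refine ⟨(le_max_left _ _).trans g1, ?_⟩
  have hl1 : 1 ≤ Real.log N := (le_max_right _ _).trans g1
  rw [Real.norm_eq_abs, Real.norm_eq_abs, abs_of_pos (by linarith : (0 : ℝ) < Real.log N)] at g3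
  have g4 := (le_abs_self _).trans g3
  have hB : (0 : ℝ) ≤ B := Nat.cast_nonneg _
  rw [div_mul_eq_mul_div, one_mul, le_div_iff₀ (by positivity)] at g4
  nlinarith [sq_nonneg (Real.log (Real.log N))]

theorem count_pairs (n x K : ℕ) (hK : x + K < n) : (count (2 * n) 1 0 (x + K) : ℝ) - count (2 * n) 1 0 x = pairs n x K := by
  classical
  have h : (Icc 1 (x + K)).filter (fun m => m % 1 = 0 ∧ m.Prime ∧ m < 2 * n ∧ (2 * n - m).Prime) =
      (Icc 1 x).filter (fun m => m % 1 = 0 ∧ m.Prime ∧ m < 2 * n ∧ (2 * n - m).Prime) ∪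
      (Ioc x (x + K)).filter (fun m => m.Prime ∧ m < n ∧ (2 * n - m).Prime) := by
    ext m
    rw [mem_union, mem_filter, mem_filter, mem_filter, mem_Icc, mem_Icc, mem_Ioc]
    constructor
    · rintro ⟨⟨h1, h2⟩, h3, h4, h5, h6⟩
      by_cases hm : m ≤ x
      · exact Or.inl ⟨⟨h1, hm⟩, h3, h4, h5, h6⟩
      · exact Or.inr ⟨⟨by omega, h2⟩, h4, by omega, h6⟩
    · rintro (⟨⟨h1, h2⟩, h3, h4, h5, h6⟩ | ⟨⟨h1, h2⟩, h4, h5, h6⟩)
      · exact ⟨⟨h1, by omega⟩, h3, h4, h5, h6⟩
      · exact ⟨⟨h4.one_le, h2⟩, Nat.mod_one _, h4, by omega, h6⟩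
  have hd : Disjoint ((Icc 1 x).filter (fun m => m % 1 = 0 ∧ m.Prime ∧ m < 2 * n ∧ (2 * n - m).Prime))
      ((Ioc x (x + K)).filter (fun m => m.Prime ∧ m < n ∧ (2 * n - m).Prime)) := by
    rw [disjoint_left]
    intro m hm hm'
    rw [mem_filter, mem_Icc] at hm
    rw [mem_filter, mem_Ioc] at hm'
    omega
  unfold count pairs
  rw [h, card_union_of_disjoint hd]
  push_cast
  ring

theorem logSum_expected (n x K : ℕ) (hx : 1 ≤ x) (hK : x + K < n) :
    logSum (2 * n) (x + K) - logSum (2 * n) x = expected n x K := by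
  classical
  have h1 : min (x + K) (2 * n - 2) = x + K := by omega
  have h2 : min x (2 * n - 2) = x := by omega
  unfold logSum expected
  rw [h1, h2]
  have h : Icc 2 (x + K) = Icc 2 x ∪ Ioc x (x + K) := by
    ext m
    rw [mem_union, mem_Icc, mem_Icc, mem_Ioc]
    omega
  have hd : Disjoint (Icc 2 x) (Ioc x (x + K)) := by
    rw [disjoint_left]
    intro m hm hm'
    rw [mem_Icc] at hm
    rw [mem_Ioc] at hm'
    omega
  rw [h, sum_union hd]
  ring

theorem expected_ge (n x K X : ℕ) (hx : 1 ≤ x) (hK : x + K < n) (hn : n ≤ X) :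
    (K : ℝ) / Real.log ((2 * X : ℕ) : ℝ) ^ 2 ≤ expected n x K := by
  unfold expected
  have h1 : ∀ m ∈ Ioc x (x + K), 1 / Real.log ((2 * X : ℕ) : ℝ) ^ 2 ≤ 1 / (Real.log m * Real.log ((2 * n - m : ℕ) : ℝ)) := by
    intro m hm
    rw [mem_Ioc] at hm
    have hm2 : (1 : ℝ) < m := by exact_mod_cast (by omega : 1 < m)
    have hm3 : (1 : ℝ) < ((2 * n - m : ℕ) : ℝ) := by exact_mod_cast (by omega : 1 < 2 * n - m)
    have h2 : 0 < Real.log m := Real.log_pos hm2
    have h3 : 0 < Real.log ((2 * n - m : ℕ) : ℝ) := Real.log_pos hm3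
    have h4 : Real.log m ≤ Real.log ((2 * X : ℕ) : ℝ) :=
      Real.log_le_log (by linarith) (Nat.cast_le.2 (by omega))
    have h5 : Real.log ((2 * n - m : ℕ) : ℝ) ≤ Real.log ((2 * X : ℕ) : ℝ) :=
      Real.log_le_log (by linarith) (Nat.cast_le.2 (by omega))
    apply one_div_le_one_div_of_le (by positivity)
    rw [sq]
    exact mul_le_mul h4 h5 h3.le (by linarith)
  have h6 := card_nsmul_le_sum (Ioc x (x + K)) _ _ h1
  rw [Nat.card_Ioc, Nat.add_sub_cancel_left, nsmul_eq_mul] at h6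
  calc (K : ℝ) / Real.log ((2 * X : ℕ) : ℝ) ^ 2 = K * (1 / Real.log ((2 * X : ℕ) : ℝ) ^ 2) := by ring
    _ ≤ _ := h6

/-- **Sums of two distinct primes, one of which lies in a short interval, and classes to all moduli.** -/
theorem result (ε : ℝ) (A : ℕ) (hε : 0 < ε) : ∃ B X₀ : ℕ, ∀ X : ℕ, X₀ ≤ X → ∀ K : ℕ, (X : ℝ) ^ (1 / 3 + ε) ≤ K → K ≤ X →
    (exceptions A B X K : ℝ) ≤ (X : ℝ) ^ 2 / (Real.log X) ^ A := by
  classical
  obtain ⟨e, he⟩ := exists_nat_gt (2 / min ε 1)
  have hm : 0 < min ε 1 := lt_min hε one_pos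
  have he1 : 1 ≤ e := by
    have h1 : 0 < 2 / min ε 1 := by positivity
    have h2 : (0 : ℝ) < e := h1.trans he
    exact_mod_cast h2
  have he0 : (0 : ℝ) < e := by exact_mod_cast he1
  have hle : 2 * (1 / (e : ℝ)) ≤ min ε 1 := by
    rw [div_lt_iff₀ hm] at he
    rw [← mul_div_assoc, mul_one, div_le_iff₀ he0]
    linarith
  have hle1 := hle.trans (min_le_left _ _)
  have hle2 := hle.trans (min_le_right _ _)
  have hC := C₂_pos
  obtain ⟨B, X₀, h⟩ := Pool.Agent.helper24_UT.Ch.t_R15 e (2 * (A + 4)) he1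
  obtain ⟨N₁, hN₁⟩ := large (4 * B) (max (max 2 (1 / C₂)) e)
  refine ⟨4 * B, max (max X₀ N₁) 1, fun X hX K hK1 hK2 => ?_⟩
  have hX1 : 1 ≤ X := (le_max_right _ _).trans hX
  have hX1r : (1 : ℝ) ≤ X := by exact_mod_cast hX1
  have hX0r : (0 : ℝ) < X := by linarith
  obtain ⟨hL, hlarge⟩ := hN₁ X (((le_max_right _ _).trans (le_max_left _ _)).trans hX)
  have hL2 : 2 ≤ Real.log X := ((le_max_left _ _).trans (le_max_left _ _)).trans hL
  have hLC : 1 / C₂ ≤ Real.log X := ((le_max_right _ _).trans (le_max_left _ _)).trans hL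
  have hLe : (e : ℝ) ≤ Real.log X := (le_max_right _ _).trans hL
  have h2X : ((2 * X : ℕ) : ℝ) = 2 * X := by push_cast; ring
  have hlog2 : Real.log ((2 * X : ℕ) : ℝ) = Real.log 2 + Real.log X := by
    rw [h2X, Real.log_mul (by norm_num) hX0r.ne']
  have hl2 : Real.log 2 ≤ 1 := by have := Real.log_two_lt_d9; linarith
  have hl2' : 0 ≤ Real.log 2 := Real.log_nonneg (by norm_num)
  have hLY : Real.log X ≤ Real.log ((2 * X : ℕ) : ℝ) := by rw [hlog2]; linarith
  have hLp : 0 < Real.log X := by linarith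
  have hLYp : 0 < Real.log ((2 * X : ℕ) : ℝ) := by linarith
  have hK0 : (0 : ℝ) ≤ K := Nat.cast_nonneg _
  -- the range of `K`
  have hpow : ((2 * X : ℕ) : ℝ) ^ (1 / 3 + 1 / e : ℝ) ≤ K := by
    refine le_trans ?_ hK1
    rw [h2X, Real.mul_rpow (by norm_num) hX0r.le]
    have h2e : (2 : ℝ) ≤ (X : ℝ) ^ (1 / e : ℝ) := by
      rw [Real.rpow_def_of_pos hX0r]
      have h5 : 1 ≤ Real.log X * (1 / e) := by
        rw [mul_one_div, le_div_iff₀ he0, one_mul]
        exact hLe
      have h6 : (2 : ℝ) ≤ Real.exp 1 := by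
        have := Real.exp_one_gt_d9
        linarith
      exact h6.trans (Real.exp_le_exp.2 h5)
    have h3 : (2 : ℝ) ^ (1 / 3 + 1 / e : ℝ) ≤ 2 := by
      calc (2 : ℝ) ^ (1 / 3 + 1 / e : ℝ) ≤ 2 ^ (1 : ℝ) := by
            apply Real.rpow_le_rpow_of_exponent_le (by norm_num)
            linarith
        _ = 2 := Real.rpow_one 2
    calc (2 : ℝ) ^ (1 / 3 + 1 / e : ℝ) * (X : ℝ) ^ (1 / 3 + 1 / e : ℝ) ≤ (X : ℝ) ^ (1 / e : ℝ) * (X : ℝ) ^ (1 / 3 + 1 / e : ℝ) :=
          mul_le_mul_of_nonneg_right (h3.trans h2e) (by positivity)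
      _ = (X : ℝ) ^ (1 / e + (1 / 3 + 1 / e) : ℝ) := by rw [← Real.rpow_add hX0r]
      _ ≤ (X : ℝ) ^ (1 / 3 + ε) := by
          apply Real.rpow_le_rpow_of_exponent_le hX1r
          linarith
  have h0 := h (2 * X) (by have := (((le_max_left _ _).trans (le_max_left _ _)).trans hX); omega) K hpow (by omega)
  -- the iterated logarithms
  have hll : B * Real.log (Real.log ((2 * X : ℕ) : ℝ)) ^ 2 ≤ (4 * B : ℕ) * Real.log (Real.log X) ^ 2 := by
    have h1 : Real.log (Real.log ((2 * X : ℕ) : ℝ)) ≤ 2 * Real.log (Real.log X) := by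
      have : 2 * Real.log (Real.log X) = Real.log (Real.log X ^ 2) := by rw [Real.log_pow]; push_cast; ring
      rw [this]
      apply Real.log_le_log hLYp
      rw [hlog2]
      nlinarith
    have h2 : 0 ≤ Real.log (Real.log ((2 * X : ℕ) : ℝ)) := Real.log_nonneg (by linarith)
    have h3 : Real.log (Real.log ((2 * X : ℕ) : ℝ)) ^ 2 ≤ (2 * Real.log (Real.log X)) ^ 2 := pow_le_pow_left₀ h2 h1 2
    have hB : (0 : ℝ) ≤ B := Nat.cast_nonneg _
    calc (B : ℝ) * Real.log (Real.log ((2 * X : ℕ) : ℝ)) ^ 2 ≤ B * (2 * Real.log (Real.log X)) ^ 2 :=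
          mul_le_mul_of_nonneg_left h3 hB
      _ = (4 * B : ℕ) * Real.log (Real.log X) ^ 2 := by push_cast; ring
  have hQ1 : (1 : ℝ) ≤ K * Real.exp (-(B * Real.log (Real.log ((2 * X : ℕ) : ℝ)) ^ 2)) := by
    have h1 : (X : ℝ) ^ (1 / 3 : ℝ) ≤ K := by
      refine le_trans ?_ hK1
      apply Real.rpow_le_rpow_of_exponent_le hX1r
      linarith
    have h2 : (X : ℝ) ^ (1 / 3 : ℝ) = Real.exp ((1 / 3) * Real.log X) := by
      rw [Real.rpow_def_of_pos hX0r, mul_comm]
    calc (1 : ℝ) = Real.exp ((1 / 3) * Real.log X) * Real.exp (-((1 / 3) * Real.log X)) := by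
          rw [← Real.exp_add, add_neg_cancel, Real.exp_zero]
      _ ≤ K * Real.exp (-(B * Real.log (Real.log ((2 * X : ℕ) : ℝ)) ^ 2)) := by
          apply mul_le_mul (h2 ▸ h1) _ (Real.exp_pos _).le hK0
          apply Real.exp_le_exp.2
          linarith
  have hkey : (exceptions A (4 * B) X K : ℝ) ≤ ((2 * X : ℕ) : ℝ) ^ 2 / (Real.log ((2 * X : ℕ) : ℝ)) ^ (2 * (A + 4)) := by
    refine le_trans ?_ h0
    unfold exceptions
    rw [Nat.cast_le]
    apply card_le_card_of_injOn (fun v => (v.1, 2 * v.2))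
    · intro v hv
      rw [mem_coe, mem_filter, mem_product, mem_Icc, mem_Icc] at hv
      rw [mem_coe, mem_filter, mem_product, mem_Icc, mem_Icc]
      obtain ⟨⟨hx, hn⟩, hv2⟩ := hv
      refine ⟨⟨⟨hx.1, hx.2.trans (by omega)⟩, (by omega : 1 ≤ 2 * v.2), (by omega : 2 * v.2 ≤ 2 * X)⟩, fun hg => hv2 ?_⟩
      have hg : Pool.Agent.helper24_UT.Good15 (2 * (A + 4)) B (2 * X) K v.1 (2 * v.2) := hg
      set x := v.1 with hxdef
      set n := v.2 with hndef
      have hsing := Pool.Agent.helper24_UT.Gss.main (2 * n) (by omega) (Dvd.intro _ rfl)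
      have hcommon : ∀ Q : ℕ, (Q : ℝ) ≤ K * Real.exp (-(B * Real.log (Real.log ((2 * X : ℕ) : ℝ)) ^ 2)) →
          ∀ y : ℕ → ℕ → ℕ, (∀ q r, y q r ≤ K) → ∑ q ∈ Icc 1 Q, ∑ r ∈ residues (2 * n) q,
            (((count (2 * n) q r (x + y q r) : ℝ) - count (2 * n) q r x) -
              sing (2 * n) / (residues (2 * n) q).card * (logSum (2 * n) (x + y q r) - logSum (2 * n) x)) ^ 2 ≤
            (K : ℝ) ^ 2 / (Real.log ((2 * X : ℕ) : ℝ)) ^ (2 * (A + 4)) := by
        intro Q hQ y hy
        have h3 := hg Q hQ y hy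
        rw [hsing] at h3
        simp only [phi_eq] at h3
        exact h3
      refine ⟨fun hxK => ?_, fun Q hQ y hy => ?_⟩
      · have h3 := hcommon 1 (by rw [Nat.cast_one]; exact hQ1) (fun _ _ => K) (fun _ _ => le_rfl)
        have hres : residues (2 * n) 1 = {0} := by
          ext r
          unfold residues
          rw [mem_filter, mem_range, mem_singleton]
          constructor
          · rintro ⟨h4, _⟩
            omega
          · rintro rfl
            refine ⟨by omega, Nat.coprime_one_right 0, ?_⟩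
            rw [Nat.cast_one, Int.gcd_one]
        rw [Icc_self, sum_singleton, hres, sum_singleton, card_singleton, Nat.cast_one, div_one, count_pairs n x K hxK,
          logSum_expected n x K hx.1 hxK] at h3
        have h4 : |(pairs n x K : ℝ) - sing (2 * n) * expected n x K| ≤ K / (Real.log ((2 * X : ℕ) : ℝ)) ^ (A + 4) := by
          apply abs_le_of_sq_le_sq _ (by positivity)
          rw [div_pow, ← pow_mul, mul_comm (A + 4) 2]
          exact h3
        refine h4.trans ?_
        have h5 := expected_ge n x K X hx.1 hxK hn.2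
        have h6 := sing_ge n hn.1
        rw [le_div_iff₀ (by positivity)]
        have h7 : C₂ * (K / Real.log ((2 * X : ℕ) : ℝ) ^ 2) ≤ sing (2 * n) * expected n x K :=
          mul_le_mul h6 h5 (by positivity) (by linarith)
        refine le_trans ?_ h7
        calc (K : ℝ) / Real.log ((2 * X : ℕ) : ℝ) ^ (A + 4) * Real.log X ^ A ≤
            (K : ℝ) / Real.log ((2 * X : ℕ) : ℝ) ^ (A + 4) * Real.log ((2 * X : ℕ) : ℝ) ^ A := by
              apply mul_le_mul_of_nonneg_left _ (by positivity)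
              exact pow_le_pow_left₀ hLp.le hLY A
          _ = (1 / Real.log ((2 * X : ℕ) : ℝ) ^ 2) * (K / Real.log ((2 * X : ℕ) : ℝ) ^ 2) := by
              rw [show A + 4 = A + 2 + 2 by ring, pow_add, pow_add]
              field_simp
          _ ≤ C₂ * (K / Real.log ((2 * X : ℕ) : ℝ) ^ 2) := by
              apply mul_le_mul_of_nonneg_right _ (by positivity)
              rw [div_le_iff₀ (by positivity)]
              have h8 : 1 / C₂ ≤ Real.log ((2 * X : ℕ) : ℝ) := hLC.trans hLY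
              rw [div_le_iff₀ hC] at h8
              have h9 : 1 ≤ Real.log ((2 * X : ℕ) : ℝ) := by linarith
              nlinarith
      · refine (hcommon Q (hQ.trans ?_) y hy).trans ?_
        · apply mul_le_mul_of_nonneg_left _ hK0
          apply Real.exp_le_exp.2
          linarith
        · apply div_le_div_of_nonneg_left (by positivity) (by positivity)
          calc Real.log X ^ A ≤ Real.log ((2 * X : ℕ) : ℝ) ^ A := pow_le_pow_left₀ hLp.le hLY A
            _ ≤ Real.log ((2 * X : ℕ) : ℝ) ^ (2 * (A + 4)) := pow_le_pow_right₀ (by linarith) (by omega)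
    · intro v _ w _ hvw
      simp only [Prod.mk.injEq] at hvw
      ext
      · exact hvw.1
      · have := hvw.2
        omega
  refine hkey.trans ?_
  rw [h2X] at *
  calc (2 * X : ℝ) ^ 2 / Real.log (2 * X : ℝ) ^ (2 * (A + 4)) ≤ (2 * X : ℝ) ^ 2 / Real.log (X : ℝ) ^ (A + 2) := by
        apply div_le_div_of_nonneg_left (by positivity) (by positivity)
        calc Real.log (X : ℝ) ^ (A + 2) ≤ Real.log (X : ℝ) ^ (2 * (A + 4)) := pow_le_pow_right₀ (by linarith) (by omega)
          _ ≤ Real.log (2 * X : ℝ) ^ (2 * (A + 4)) := pow_le_pow_left₀ hLp.le hLY _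
    _ = X ^ 2 / Real.log (X : ℝ) ^ A * (4 / Real.log (X : ℝ) ^ 2) := by
        rw [pow_add]
        field_simp
        ring
    _ ≤ X ^ 2 / Real.log (X : ℝ) ^ A * 1 := by
        apply mul_le_mul_of_nonneg_left _ (by positivity)
        rw [div_le_one (by positivity)]
        nlinarith
    _ = _ := mul_one _

end Pool.Agent.Results.MP_7b7e48_nt.AlmostAllShortWindows
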