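import Pool.Agent.H35_GD.Core2
import Pool.Agent.W25.UB.Final

/-!
# Either the Goldbach numbers have bounded gaps, or almost every even number is a gap between
consecutive primes

Let `g n` be the number of the representations `2 n = p + q` with primes `p > n > q`. There is an
absolute constant `K` such that at least one of the following two statements is true.

(A) There is a constant `C` such that for every `η > 0` every large integer `N` has an integer `n` with
`|n - N| ≤ C` and `g n ≥ N ^ (1 - η)`; so every large integer is within `C` of some `n` for which `2 n` is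
the sum of two distinct primes.

(B) Let `E` be the set of the positive integers `k` which are not frequent; `k` is frequent if, for every
`η > 0` and arbitrarily large `X`, at least `X ^ (1 - η)` primes up to `X` are followed by a gap of length
exactly `2 k`. Then `E` contains no sumset `X + Y` of two sets with `K` elements, and EVERY window of
length `L` contains at most `8 K L ^ (1 - 1 / K)` elements of `E`. So `E` has Banach density zero: almost
all even numbers, in every long window, are gaps between consecutive primes infinitely often.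

The first part of the theorem is the same dichotomy at EVERY large scale `N`, for the `k ≤ L`: if all `n`
near `N` have fewer than `N ^ (1 - η)` representations, then the set of the `k ≤ L` for which fewer than
`N ^ (1 - η)` primes up to `2 N` are followed by a gap of length exactly `2 k` is thin in the same sense,
with the same absolute constant `K`.

Proof. The coloured Maynard-Tao theorem with a pair factor below four, for the linear forms `N + n + h` and
`N - n + h`, uniformly in `N` (`Pool.Agent.W25.UB.thmV`, starting files): of any four classes of `K` forms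
two contain primes at the same time. Two classes are taken on each side, with the differences of the
shifts in `2 (X + Y)`; all other shifts are blocked by congruences, on both sides by the same primes. A
hit on both sides is a sum of two primes near `2 N`; a hit on one side gives two consecutive primes. The
bound for windows is the theorem of Kovari, Sos and Turan (`Pool.Agent.TH880.GP.kst`).
-/

set_option autoImplicit false

namespace Pool.Agent.Results.MP_7b7e48_nt.BoundedGapsOrPrimeGaps

open Filter

/-- `g(n)`: the number of the pairs of primes `(p, q)` with `p + q = 2 n` and `p > n > q` -/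
noncomputable def g (n : ℕ) : ℕ :=
  {z : ℕ × ℕ | z.1.Prime ∧ z.2.Prime ∧ z.1 + z.2 = 2 * n ∧ z.2 < n ∧ n < z.1}.ncard

/-- the number of the `m` for which the `m`-th prime is at most `X` and the next prime is larger by
exactly `2 k` (the primes are `Nat.nth Nat.Prime 0 = 2`, `Nat.nth Nat.Prime 1 = 3`, ...) -/
noncomputable def gapCount (k X : ℕ) : ℕ :=
  {m : ℕ | Nat.nth Nat.Prime m ≤ X ∧
    Nat.nth Nat.Prime (m + 1) = Nat.nth Nat.Prime m + 2 * k}.ncard

/-- some `n` within `C` of `N` has `g n ≥ N ^ (1 - η)` -/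
def NearGoldbach (C : ℕ) (η : ℝ) (N : ℕ) : Prop :=
  ∃ n : ℕ, |(n : ℤ) - N| ≤ C ∧ (N : ℝ) ^ (1 - η) ≤ (g n : ℝ)

/-- for every `η > 0` and arbitrarily large `X` at least `X ^ (1 - η)` primes up to `X` are followed by a
gap of length exactly `2 k` -/
def Frequent (k : ℕ) : Prop :=
  ∀ η : ℝ, 0 < η → ∃ᶠ X : ℕ in atTop, (X : ℝ) ^ (1 - η) ≤ (gapCount k X : ℝ)

/-- `E` contains no sumset `X + Y` of two sets of integers with at least `K` elements, and every window
`(u, u + L]` contains at most `8 K L ^ (1 - 1 / K)` elements of `E` -/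
def Thin (K : ℕ) (E : Set ℕ) : Prop :=
  (∀ X Y : Finset ℤ, K ≤ X.card → K ≤ Y.card → ∃ x ∈ X, ∃ y ∈ Y, ∀ k ∈ E, (k : ℤ) ≠ x + y) ∧
  ∀ u L : ℕ, 1 ≤ L → ({k : ℕ | k ∈ E ∧ u < k ∧ k ≤ u + L}.ncard : ℝ) ≤
    8 * K * (L : ℝ) ^ (1 - 1 / (K : ℝ))

theorem gapCount_eq (k X : ℕ) : Pool.Agent.H35_GD.gaps (k : ℤ) X = gapCount k X := by
  unfold Pool.Agent.H35_GD.gaps gapCount
  congr 1
  ext m
  simp only [Set.mem_ofPred_eq]
  constructor
  · rintro ⟨h1, h2⟩
    exact ⟨h1, by exact_mod_cast h2⟩
  · rintro ⟨h1, h2⟩
    exact ⟨h1, by exact_mod_cast h2⟩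

theorem many_iff (k : ℕ) : Pool.Agent.H35_GD.Many (k : ℤ) ↔ Frequent k := by
  unfold Pool.Agent.H35_GD.Many Frequent
  simp only [gapCount_eq]

theorem thin_of {K : ℕ} (hK : 1 ≤ K) (E : Set ℕ)
    (h : ∀ X Y : Finset ℤ, K ≤ X.card → K ≤ Y.card → ∃ x ∈ X, ∃ y ∈ Y, ∀ k ∈ E, (k : ℤ) ≠ x + y) :
    Thin K E :=
  ⟨h, fun u L hL => Pool.Agent.H35_GD.thin hK E h u L hL⟩

theorem result : ∃ K : ℕ, 1 ≤ K ∧
    (∀ L : ℕ, ∃ C : ℕ, ∀ η : ℝ, 0 < η → ∀ᶠ N : ℕ in atTop, NearGoldbach C η N ∨
      Thin K {k : ℕ | 1 ≤ k ∧ k ≤ L ∧ (gapCount k (2 * N) : ℝ) < (N : ℝ) ^ (1 - η)}) ∧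
    ((∃ C : ℕ, ∀ η : ℝ, 0 < η → ∀ᶠ N : ℕ in atTop, NearGoldbach C η N) ∨
      Thin K {k : ℕ | 1 ≤ k ∧ ¬ Frequent k}) := by
  obtain ⟨K, hK, h⟩ := Pool.Agent.H35_GD.core Pool.Agent.W25.UB.thmV
  refine ⟨K, hK, ?_, ?_⟩
  · intro L
    obtain ⟨C, hC⟩ := Pool.Agent.H35_GD.uniform hK h L
    refine ⟨C, fun η hη => ?_⟩
    filter_upwards [hC η hη] with N hN
    rcases hN with h1 | h1
    · exact Or.inl h1
    · right
      apply thin_of hK
      intro X Y hX hY
      obtain ⟨x, hx, y, hy, h2⟩ := h1 X Y hX hY
      refine ⟨x, hx, y, hy, ?_⟩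
      rintro k ⟨h3, h4, h5⟩ he
      apply h2
      rw [← he, gapCount_eq]
      exact ⟨by omega, by omega, h5⟩
  · by_cases hno : ∃ C : ℕ, ∀ η : ℝ, 0 < η → ∀ᶠ N : ℕ in atTop, NearGoldbach C η N
    · exact Or.inl hno
    · right
      apply thin_of hK
      intro X Y hX hY
      by_cases hpos : ∀ x ∈ X, ∀ y ∈ Y, 0 < x + y
      · obtain ⟨x, hx, y, hy, h2⟩ := Pool.Agent.H35_GD.limit_sets h hno X Y hX hY hpos
        refine ⟨x, hx, y, hy, ?_⟩
        rintro k ⟨-, h3⟩ he
        apply h3
        rw [← many_iff, he]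
        exact h2
      · push Not at hpos
        obtain ⟨x, hx, y, hy, h2⟩ := hpos
        refine ⟨x, hx, y, hy, ?_⟩
        rintro k ⟨h3, -⟩ he
        omega

end Pool.Agent.Results.MP_7b7e48_nt.BoundedGapsOrPrimeGaps
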