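import Mathlib
import Pool.Agent.H806.MT.F

/-!
# Sums of two distinct primes `p`, `p'` with `α p²` and `β p'²` in prescribed short arcs modulo 1, for every `n`

For almost all real `β` and almost all real `α` there is `n₀` such that for EVERY `n ≥ n₀` the pairs
`(α p², β (n - p)²)` modulo 1, over all representations of `n` as a sum of two primes `p`, `n - p`, are equidistributed
with an error of at most `n^(1 - 1/200)`. No `n` is excluded. So every large `n` with at least `n^(1 - 1/500)`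
representations is, for ALL real `u` and `v`, a sum of two distinct odd primes `p`, `p'` with
`‖α p² - u‖ ≤ n^(-1/1000)` and `‖β p'² - v‖ ≤ n^(-1/1000)`: the exceptional set for the thin sets is the exceptional
set of Goldbach's problem itself (in the form that there are fewer than `n^(1 - 1/500)` representations), up to
finitely many `n`. In particular all but at most `N / (log N)^A` of the even `n ≤ N` have this property.

Proof. The number of the solutions of `a² + b² = c² + d²` in an arbitrary set `A` of positive integers up to `n` is at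
most `#A² n^ε`. Hence the fourth moment over `α` of `∑_{p ∈ A} c_p e(k α p²)` is at most `n^(2 + ε)` for an arbitrary
set `A` and arbitrary `|c_p| ≤ 1`; we take for `A` the set of the primes `p ≤ n` with `n - p` prime, and
`c_p = e(l β (n - p)²)`. The measure of the `α` in an interval of length one for which one of these sums with
`0 < |k| ≤ n^(3/100)`, `|l| ≤ n^(3/100)` exceeds `n^(39/50)` is at most a constant times `n^(-26/25)`, and the lemma of
Borel and Cantelli, over all `n`, and a Fourier majorant of an arc complete the proof of (1). For the frequencies with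
`k = 0` the same is a condition on `β`.
-/

set_option autoImplicit false

namespace Pool.Agent.Results.MP_7b7e48_nt.EveryNThinSets

open Finset MeasureTheory

/-- The number of the primes `p ≤ n` with `n - p` prime. (If `p = n`, then `n - p = 0` is not prime.) -/
def reps (n : ℕ) : ℕ := ((Icc 1 n).filter (fun p => p.Prime ∧ (n - p).Prime)).card

open Classical in
/-- The number of those among them with `α p² ∈ [a₁, a₁ + b₁)` and `β (n - p)² ∈ [a₂, a₂ + b₂)` modulo 1. -/
noncomputable def arcReps (α β : ℝ) (n : ℕ) (a₁ b₁ a₂ b₂ : ℝ) : ℕ :=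
  ((Icc 1 n).filter (fun p : ℕ => (p.Prime ∧ (n - p).Prime) ∧
    Int.fract (α * (p : ℝ) ^ 2 - a₁) < b₁ ∧ Int.fract (β * ((n - p : ℕ) : ℝ) ^ 2 - a₂) < b₂)).card

/-- For all real `u`, `v`, the number `n` is a sum of two distinct odd primes `p`, `p'` with `α p²` and `β p'²` at a
distance of at most `n^(-1/1000)` from `u` and `v` modulo 1. -/
def Represented (α β : ℝ) (n : ℕ) : Prop :=
  ∀ u v : ℝ, ∃ p p' : ℕ, p.Prime ∧ p'.Prime ∧ p ≠ 2 ∧ p' ≠ 2 ∧ p ≠ p' ∧ p + p' = n ∧
    (∃ m : ℤ, |α * (p : ℝ) ^ 2 - u - m| ≤ (n : ℝ) ^ (-(1 / 1000) : ℝ)) ∧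
    ∃ m : ℤ, |β * (p' : ℝ) ^ 2 - v - m| ≤ (n : ℝ) ^ (-(1 / 1000) : ℝ)

/-- For almost all real `β`, for almost all real `α`: (1) equidistribution with a power saving over the
representations of EVERY large `n` as a sum of two primes; (2) every large `n` with at least `n^(1 - 1/500)`
representations is represented by primes from the thin sets; (3) so are all but at most `N / (log N)^A` of the even
`n ≤ N`, for every `A` and all large `N`. -/
theorem result : ∀ᵐ β : ℝ, ∀ᵐ α : ℝ,
    (∃ n₀ : ℕ, ∀ n : ℕ, n₀ ≤ n → ∀ a₁ b₁ a₂ b₂ : ℝ, 0 ≤ b₁ → b₁ ≤ 1 → 0 ≤ b₂ → b₂ ≤ 1 →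
      |(arcReps α β n a₁ b₁ a₂ b₂ : ℝ) - b₁ * b₂ * reps n| ≤ (n : ℝ) ^ (1 - 1 / 200 : ℝ)) ∧
    (∃ n₀ : ℕ, ∀ n : ℕ, n₀ ≤ n → (n : ℝ) ^ (1 - 1 / 500 : ℝ) ≤ (reps n : ℝ) → Represented α β n) ∧
    (∀ A : ℕ, ∃ N₀ : ℕ, ∀ N : ℕ, N₀ ≤ N → ∃ E : Finset ℕ, (E.card : ℝ) ≤ N / Real.log N ^ A ∧
      ∀ n : ℕ, 0 < n → Even n → n ≤ N → n ∉ E → Represented α β n) := by
  classical
  filter_upwards [Pool.Agent.H806.MT.ae_GB] with β hβ
  filter_upwards [Pool.Agent.H806.MT.ae_GA β] with α hα
  obtain ⟨n₁, h1⟩ := Pool.Agent.H806.MT.every_n α β hα hβ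
  obtain ⟨n₂, h2⟩ := Pool.Agent.H806.MT.every_rep α β n₁ h1
  refine ⟨⟨n₁, fun n hn a₁ b₁ a₂ b₂ g1 g2 g3 g4 => ?_⟩, ⟨n₂, fun n hn hr => h2 n hn hr⟩, fun A => ?_⟩
  · have e : arcReps α β n a₁ b₁ a₂ b₂ = Pool.Agent.H806.MT.arcG α β n a₁ b₁ a₂ b₂ := by
      unfold arcReps Pool.Agent.H806.MT.arcG Pool.Agent.H806.MT.repG
      rw [filter_filter]
    rw [e]
    exact h1 n hn a₁ b₁ a₂ b₂ g1 g2 g3 g4
  · obtain ⟨N₀, h3⟩ := Pool.Agent.H806.MT.rep_almost A n₂
    refine ⟨N₀, fun N hN => ?_⟩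
    obtain ⟨E, hE1, hE2⟩ := h3 N hN
    refine ⟨E, hE1, fun n h0 he hnN hnE => ?_⟩
    obtain ⟨g1, g2⟩ := hE2 n h0 he hnN hnE
    exact h2 n g1 g2

end Pool.Agent.Results.MP_7b7e48_nt.EveryNThinSets
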